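import Pool.Agent.Helper73.OT.NB

/-!
# MP_2857a5_co : module SC, counting bare segments
-/

set_option autoImplicit false

open Finset
open scoped Classical

namespace OT

noncomputable section

variable {n : ℕ} {T : PTree n} {U : Finset (Fin n)} {R : Type}

/-- The number of steps from `v` to the top of its component. -/
def PTree.dp (T : PTree n) (U : Finset (Fin n)) (v : Fin n) : ℕ :=
  if h : (v : ℕ) = 0 ∨ T.par v ∈ U then 0 else T.dp U (T.par v) + 1
termination_by (v : ℕ)
decreasing_by exact T.lt v (fun h0 => h (Or.inl h0))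

theorem PTree.dp_top {v : Fin n} (h : T.par v ∈ U) : T.dp U v = 0 := by
  rw [PTree.dp, dif_pos (Or.inr h)]

theorem PTree.dp_succ {v : Fin n} (h0 : (v : ℕ) ≠ 0) (h : T.par v ∉ U) :
    T.dp U v = T.dp U (T.par v) + 1 := by
  rw [PTree.dp, dif_neg (by tauto)]

/-- The unique child. -/
def PTree.nxt (T : PTree n) (x : Fin n) : Fin n :=
  if h : T.nch x = 1 then (Finset.card_eq_one.mp h).choose else x

theorem PTree.nxt_spec {x : Fin n} (h : T.nch x = 1) : T.ch x = {T.nxt x} := by
  rw [PTree.nxt, dif_pos h]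
  exact (Finset.card_eq_one.mp h).choose_spec

theorem PTree.mem_ch {x y : Fin n} : y ∈ T.ch x ↔ (y : ℕ) ≠ 0 ∧ T.par y = x := by
  simp [PTree.ch]

theorem PTree.par_nxt {x : Fin n} (h : T.nch x = 1) : T.par (T.nxt x) = x := by
  have : T.nxt x ∈ T.ch x := by rw [PTree.nxt_spec h]; simp
  exact (PTree.mem_ch.1 this).2

theorem PTree.nxt_ne {x : Fin n} (h : T.nch x = 1) : ((T.nxt x : Fin n) : ℕ) ≠ 0 := by
  have : T.nxt x ∈ T.ch x := by rw [PTree.nxt_spec h]; simp
  exact (PTree.mem_ch.1 this).1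

theorem PTree.eq_nxt {x y : Fin n} (h : T.nch x = 1) (h0 : (y : ℕ) ≠ 0) (hy : T.par y = x) :
    T.nxt x = y := by
  have : y ∈ T.ch x := PTree.mem_ch.2 ⟨h0, hy⟩
  rw [PTree.nxt_spec h, Finset.mem_singleton] at this
  exact this.symm

/-- The descendants `j` steps below `v`. -/
def PTree.desc (T : PTree n) : ℕ → Fin n → Finset (Fin n)
  | 0, v => {v}
  | j + 1, v => (T.desc j v).biUnion T.ch

theorem PTree.desc_card {Δ : ℕ} (hΔ : T.Deg Δ) (j : ℕ) (v : Fin n) :
    (T.desc j v).card ≤ Δ ^ j := by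
  induction j with
  | zero => simp [PTree.desc]
  | succ j ih =>
    rw [PTree.desc]
    refine (Finset.card_biUnion_le).trans ?_
    refine (Finset.sum_le_card_nsmul _ _ Δ (fun x _ => hΔ x)).trans ?_
    rw [smul_eq_mul, pow_succ]
    exact Nat.mul_le_mul_right _ ih

section

variable (h0 : ∀ i : Fin n, (i : ℕ) = 0 → i ∈ U)
include h0

theorem PTree.ne_zero {v : Fin n} (hv : v ∉ U) : (v : ℕ) ≠ 0 := fun h => hv (h0 v h)

theorem PTree.iter_dp {v : Fin n} (hv : v ∉ U) (i : ℕ) (hi : i ≤ T.dp U v) :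
    T.par^[i] v ∉ U ∧ T.dp U (T.par^[i] v) = T.dp U v - i := by
  induction i with
  | zero => exact ⟨hv, rfl⟩
  | succ i ih =>
    obtain ⟨h1, h2⟩ := ih (by omega)
    rw [Function.iterate_succ_apply']
    have h3 : T.par (T.par^[i] v) ∉ U := by
      intro h
      have := PTree.dp_top (T := T) h
      omega
    refine ⟨h3, ?_⟩
    have := PTree.dp_succ (PTree.ne_zero h0 h1) h3
    omega

theorem Roles.dp_eq (S : Roles T U R) (m : ℕ) : ∀ v w : Fin n, T.dp U v = m → v ∉ U → w ∉ U →
    S.role v = S.role w → T.dp U w = m := by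
  induction m with
  | zero =>
    intro v w hm hv hw hr
    have hpv : T.par v ∈ U := by
      by_contra h
      have := PTree.dp_succ (PTree.ne_zero h0 hv) h
      omega
    have hpw : T.par w ∈ U := by
      by_contra h
      have h1 := S.top v hv hpv
      have h2 := S.par w hw h
      rw [← hr, h1] at h2
      exact absurd h2 (by simp)
    exact PTree.dp_top hpw
  | succ m ih =>
    intro v w hm hv hw hr
    have hpv : T.par v ∉ U := by
      intro h
      have := PTree.dp_top (T := T) h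
      omega
    have hpw : T.par w ∉ U := by
      intro h
      have h1 := S.top w hw h
      have h2 := S.par v hv hpv
      rw [hr, h1] at h2
      exact absurd h2 (by simp)
    have h1 := S.par v hv hpv
    have h2 := S.par w hw hpw
    rw [hr, h2] at h1
    have h3 : S.role (T.par v) = S.role (T.par w) := (Option.some.inj h1).symm
    have h4 := PTree.dp_succ (PTree.ne_zero h0 hv) hpv
    have h5 := PTree.dp_succ (PTree.ne_zero h0 hw) hpw
    have h6 := ih (T.par v) (T.par w) (by omega) hpv hpw h3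
    omega

theorem Roles.iter_role (S : Roles T U R) {v w : Fin n} (hv : v ∉ U) (hw : w ∉ U)
    (hr : S.role v = S.role w) (i : ℕ) (hi : i ≤ T.dp U v) :
    S.role (T.par^[i] v) = S.role (T.par^[i] w) := by
  have hdw : T.dp U w = T.dp U v := S.dp_eq h0 _ v w rfl hv hw hr
  induction i with
  | zero => exact hr
  | succ i ih =>
    have h1 := ih (by omega)
    obtain ⟨a1, _⟩ := PTree.iter_dp (T := T) h0 hv i (by omega)
    obtain ⟨b1, _⟩ := PTree.iter_dp (T := T) h0 hw i (by omega)
    obtain ⟨a2, _⟩ := PTree.iter_dp (T := T) h0 hv (i + 1) (by omega)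
    obtain ⟨b2, _⟩ := PTree.iter_dp (T := T) h0 hw (i + 1) (by omega)
    rw [Function.iterate_succ_apply'] at a2 b2 ⊢
    rw [Function.iterate_succ_apply']
    have c1 := S.par _ a1 a2
    have c2 := S.par _ b1 b2
    rw [h1, c2] at c1
    exact (Option.some.inj c1).symm

theorem Roles.iter_Ra (S : Roles T U R) (Ra : Finset R)
    (hRa : ∀ v, v ∉ U → T.par v ∉ U → (S.role v ∈ Ra ↔ S.role (T.par v) ∈ Ra))
    {v : Fin n} (hv : v ∉ U) (i : ℕ) (hi : i ≤ T.dp U v) :
    (S.role v ∈ Ra ↔ S.role (T.par^[i] v) ∈ Ra) := by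
  induction i with
  | zero => exact Iff.rfl
  | succ i ih =>
    obtain ⟨a1, _⟩ := PTree.iter_dp (T := T) h0 hv i (by omega)
    obtain ⟨a2, _⟩ := PTree.iter_dp (T := T) h0 hv (i + 1) (by omega)
    rw [Function.iterate_succ_apply'] at a2 ⊢
    exact (ih (by omega)).trans (hRa _ a1 a2)

theorem PTree.mem_desc {u : Fin n} (hu : u ∉ U) (j : ℕ) (hj : j ≤ T.dp U u) :
    u ∈ T.desc j (T.par^[j] u) := by
  induction j generalizing u with
  | zero => simp [PTree.desc]
  | succ j ih =>
    rw [Function.iterate_succ_apply, PTree.desc, Finset.mem_biUnion]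
    have hp : T.par u ∉ U := by
      intro h
      have := PTree.dp_top (T := T) h
      omega
    have hd := PTree.dp_succ (PTree.ne_zero h0 hu) hp
    exact ⟨T.par u, ih hp (by omega), PTree.mem_ch.2 ⟨PTree.ne_zero h0 hu, rfl⟩⟩

theorem PTree.nxt_iter_par {u : Fin n} (hu : u ∉ U) (j : ℕ) (hj : j ≤ T.dp U u)
    (hc : ∀ i < j, T.nch (T.nxt^[i] (T.par^[j] u)) = 1) : T.nxt^[j] (T.par^[j] u) = u := by
  induction j generalizing u with
  | zero => rfl
  | succ j ih =>
    have hp : T.par u ∉ U := by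
      intro h
      have := PTree.dp_top (T := T) h
      omega
    have hd := PTree.dp_succ (PTree.ne_zero h0 hu) hp
    simp only [Function.iterate_succ_apply T.par] at hc ⊢
    have h1 := ih hp (by omega) (fun i hi => hc i (by omega))
    have h2 := hc j (by omega)
    rw [Function.iterate_succ_apply', h1]
    rw [h1] at h2
    exact PTree.eq_nxt h2 (PTree.ne_zero h0 hu) rfl

theorem PTree.chain {v : Fin n} (hv : v ∉ U) (j : ℕ)
    (hc : ∀ i < j, T.nch (T.nxt^[i] v) = 1 ∧ T.nxt^[i + 1] v ∉ U) :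
    T.nxt^[j] v ∉ U ∧ T.dp U (T.nxt^[j] v) = T.dp U v + j ∧
      ∀ i ≤ j, T.par^[i] (T.nxt^[j] v) = T.nxt^[j - i] v := by
  induction j with
  | zero =>
    refine ⟨hv, rfl, fun i hi => ?_⟩
    obtain rfl : i = 0 := by omega
    rfl
  | succ j ih =>
    obtain ⟨a1, a2, a3⟩ := ih (fun i hi => hc i (by omega))
    obtain ⟨b1, b2⟩ := hc j (by omega)
    have hpar : T.par (T.nxt^[j + 1] v) = T.nxt^[j] v := by
      rw [Function.iterate_succ_apply']
      exact PTree.par_nxt b1
    refine ⟨b2, ?_, fun i hi => ?_⟩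
    · have := PTree.dp_succ (T := T) (U := U) (PTree.ne_zero h0 b2) (by rw [hpar]; exact a1)
      rw [hpar] at this
      omega
    · rcases Nat.eq_zero_or_pos i with rfl | hi0
      · rfl
      · obtain ⟨i, rfl⟩ : ∃ i', i = i' + 1 := ⟨i - 1, by omega⟩
        rw [Function.iterate_succ_apply, hpar, a3 i (by omega)]
        congr 1
        omega

end

/-- `u` is the bottom of a bare segment. -/
def Roles.Bot (S : Roles T U R) (Ra : Finset R) (k : ℕ) (u : Fin n) : Prop :=
  u ∉ U ∧ S.role u ∉ Ra ∧ T.dp U u % (k + 1) = k ∧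
    ∀ i, 1 ≤ i → i ≤ k → T.nch (T.par^[i] u) = 1

theorem Roles.Bot.le {S : Roles T U R} {Ra : Finset R} {k : ℕ} {u : Fin n}
    (h : S.Bot Ra k u) : k ≤ T.dp U u := by
  have h1 := h.2.2.1
  have h2 := Nat.mod_le (T.dp U u) (k + 1)
  omega

theorem Roles.Bot.congr (h0 : ∀ i : Fin n, (i : ℕ) = 0 → i ∈ U) {S : Roles T U R}
    {Ra : Finset R} {k : ℕ} {u w : Fin n}
    (h : S.Bot Ra k u) (hw : w ∉ U) (hr : S.role u = S.role w) : S.Bot Ra k w := by
  have hk := h.le
  obtain ⟨hu, ha, hd, hc⟩ := h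
  have hdw := S.dp_eq h0 _ u w rfl hu hw hr
  refine ⟨hw, hr ▸ ha, by rw [hdw]; exact hd, fun i h1 h2 => ?_⟩
  have e := S.iter_role h0 hu hw hr i (by omega)
  have a1 := (PTree.iter_dp (T := T) h0 hu i (by omega)).1
  have b1 := (PTree.iter_dp (T := T) h0 hw i (by omega)).1
  rw [← S.nc _ b1, ← e, S.nc _ a1]
  exact hc i h1 h2

theorem sum_pow_le (Δ k : ℕ) : ∑ j ∈ range (k + 1), Δ ^ j ≤ (Δ + 1) ^ k := by
  induction k with
  | zero => simp
  | succ k ih =>
    rw [Finset.sum_range_succ, pow_succ (Δ + 1)]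
    have : Δ ^ (k + 1) ≤ (Δ + 1) ^ k * Δ := by
      rw [pow_succ]
      exact Nat.mul_le_mul_right _ (Nat.pow_le_pow_left (by omega) k)
    nlinarith

theorem PTree.card_ne_one (T : PTree n) :
    (univ.filter fun v => T.nch v ≠ 1).card ≤ 2 * (univ.filter fun v => T.nch v = 0).card := by
  have hsum : ∑ v, T.nch v ≤ n := by
    have h1 : ∑ v, T.nch v = (univ.filter fun i : Fin n => (i : ℕ) ≠ 0).card := by
      rw [Finset.card_eq_sum_card_fiberwise (f := T.par) (t := univ) (fun _ _ => by simp)]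
      refine Finset.sum_congr rfl fun v _ => ?_
      rw [PTree.nch, PTree.ch, Finset.filter_filter]
    rw [h1]
    exact (Finset.card_le_univ _).trans (by simp)
  have hpt : ∀ v ∈ (univ : Finset (Fin n)), 1 + (if T.nch v ≠ 1 then 1 else 0) ≤
      T.nch v + 2 * (if T.nch v = 0 then 1 else 0) := by
    intro v _
    split_ifs <;> omega
  have := Finset.sum_le_sum hpt
  rw [Finset.sum_add_distrib, Finset.sum_add_distrib, ← Finset.mul_sum, ← Finset.card_filter,
    ← Finset.card_filter, Finset.sum_const, Finset.card_univ, Fintype.card_fin] at this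
  simp only [smul_eq_mul, mul_one] at this
  omega

theorem segment_count (Δ k : ℕ) (hΔ : T.Deg Δ)
    (h0 : ∀ i : Fin n, (i : ℕ) = 0 → i ∈ U) (S : Roles T U R) (Ra : Finset R)
    (hRa : ∀ v, v ∉ U → T.par v ∉ U → (S.role v ∈ Ra ↔ S.role (T.par v) ∈ Ra)) :
    n ≤ (k + 1) * (univ.filter fun u => S.Bot Ra k u).card +
      3 * (Δ + 1) ^ (k + 1) * ((univ.filter fun v => T.nch v = 0).card +
        (univ.filter fun v => v ∈ U ∨ S.role v ∈ Ra).card) := by
  set NB : Finset (Fin n) := univ.filter fun v => v ∈ U ∨ S.role v ∈ Ra with hNB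
  set Good : Fin n → Prop := fun v => ∀ i < k, T.nch (T.nxt^[i] v) = 1 ∧ T.nxt^[i + 1] v ∉ U
    with hGood
  set V0 : Finset (Fin n) :=
    univ.filter fun v => v ∉ U ∧ S.role v ∉ Ra ∧ T.dp U v % (k + 1) = 0 with hV0
  set G : Finset (Fin n) := V0.filter Good with hG
  set Bd : Finset (Fin n) := V0.filter fun v => ¬ Good v with hBd
  set B : Finset (Fin n) := univ.filter fun u => S.Bot Ra k u with hB
  set X : Finset (Fin n) := univ.filter fun v => T.nch v ≠ 1 with hX
  set anc : Fin n → Fin n := fun x => T.par^[T.dp U x % (k + 1)] x with hanc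
  -- good vertices
  have hgood : G ⊆ B.image (T.par^[k]) := by
    intro v hv
    rw [hG, Finset.mem_filter, hV0, Finset.mem_filter] at hv
    obtain ⟨⟨-, hvU, hva, hvd⟩, hg⟩ := hv
    obtain ⟨c1, c2, c3⟩ := PTree.chain h0 hvU k hg
    rw [Finset.mem_image]
    have hk : T.par^[k] (T.nxt^[k] v) = v := by
      have := c3 k le_rfl
      simpa using this
    refine ⟨T.nxt^[k] v, ?_, hk⟩
    rw [hB, Finset.mem_filter]
    refine ⟨Finset.mem_univ _, c1, ?_, ?_, ?_⟩
    · rw [S.iter_Ra h0 Ra hRa c1 k (by omega), hk]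
      exact hva
    · rw [c2, Nat.add_mod, hvd, zero_add, Nat.mod_mod]
      exact Nat.mod_eq_of_lt (by omega)
    · intro i h1 h2
      rw [c3 i h2]
      exact (hg (k - i) (by omega)).1
  -- bad vertices
  have hbad : Bd ⊆ X.image anc ∪ U.image (fun x => anc (T.par x)) := by
    intro v hv
    rw [hBd, Finset.mem_filter, hV0, Finset.mem_filter] at hv
    obtain ⟨⟨-, hvU, hva, hvd⟩, hg⟩ := hv
    have hex : ∃ i, i < k ∧ ¬ (T.nch (T.nxt^[i] v) = 1 ∧ T.nxt^[i + 1] v ∉ U) := by
      rw [hGood] at hg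
      push Not at hg
      obtain ⟨i, hi, hi2⟩ := hg
      exact ⟨i, hi, fun h => h.2 (hi2 h.1)⟩
    have hspec := Nat.find_spec hex
    set i := Nat.find hex with hi
    have hmin : ∀ i' < i, T.nch (T.nxt^[i'] v) = 1 ∧ T.nxt^[i' + 1] v ∉ U := by
      intro i' hi'
      have := Nat.find_min hex hi'
      by_contra hcon
      exact this ⟨by omega, hcon⟩
    obtain ⟨c1, c2, c3⟩ := PTree.chain h0 hvU i hmin
    have hanci : anc (T.nxt^[i] v) = v := by
      rw [hanc]
      dsimp only
      have : T.dp U (T.nxt^[i] v) % (k + 1) = i := by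
        rw [c2, Nat.add_mod, hvd, zero_add, Nat.mod_mod]
        exact Nat.mod_eq_of_lt (by omega)
      rw [this, c3 i le_rfl]
      simp
    rw [Finset.mem_union, Finset.mem_image, Finset.mem_image]
    by_cases hc : T.nch (T.nxt^[i] v) = 1
    · right
      have hU' : T.nxt^[i + 1] v ∈ U := by
        by_contra hcon
        exact hspec.2 ⟨hc, hcon⟩
      refine ⟨T.nxt^[i + 1] v, hU', ?_⟩
      rw [Function.iterate_succ_apply', PTree.par_nxt hc]
      exact hanci
    · left
      exact ⟨T.nxt^[i] v, by rw [hX]; simp [hc], hanci⟩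
  -- the cover
  have hcover : (univ : Finset (Fin n)) ⊆ (NB ∪
      G.biUnion (fun v => (range (k + 1)).image fun j => T.nxt^[j] v)) ∪
      Bd.biUnion (fun v => (range (k + 1)).biUnion fun j => T.desc j v) := by
    intro u _
    by_cases huN : u ∈ NB
    · exact Finset.mem_union_left _ (Finset.mem_union_left _ huN)
    rw [hNB, Finset.mem_filter] at huN
    push Not at huN
    obtain ⟨huU, hua⟩ := huN (Finset.mem_univ _)
    set j := T.dp U u % (k + 1) with hj
    have hjk : j < k + 1 := Nat.mod_lt _ (by omega)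
    have hjd : j ≤ T.dp U u := Nat.mod_le _ _
    obtain ⟨a1, a2⟩ := PTree.iter_dp (T := T) h0 huU j hjd
    have hvV : T.par^[j] u ∈ V0 := by
      rw [hV0, Finset.mem_filter]
      refine ⟨Finset.mem_univ _, a1, ?_, ?_⟩
      · rw [← S.iter_Ra h0 Ra hRa huU j hjd]
        exact hua
      · rw [a2]
        have : (k + 1) ∣ (T.dp U u - j) := Nat.dvd_sub_mod _
        exact Nat.mod_eq_zero_of_dvd this
    by_cases hg : Good (T.par^[j] u)
    · apply Finset.mem_union_left
      apply Finset.mem_union_right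
      rw [Finset.mem_biUnion]
      refine ⟨T.par^[j] u, by rw [hG, Finset.mem_filter]; exact ⟨hvV, hg⟩, ?_⟩
      rw [Finset.mem_image]
      exact ⟨j, Finset.mem_range.2 hjk, PTree.nxt_iter_par h0 huU j hjd
        (fun i hi => (hg i (by omega)).1)⟩
    · apply Finset.mem_union_right
      rw [Finset.mem_biUnion]
      refine ⟨T.par^[j] u, by rw [hBd, Finset.mem_filter]; exact ⟨hvV, hg⟩, ?_⟩
      rw [Finset.mem_biUnion]
      exact ⟨j, Finset.mem_range.2 hjk, PTree.mem_desc h0 huU j hjd⟩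
  -- cardinalities
  have hcG : G.card ≤ B.card := (Finset.card_le_card hgood).trans Finset.card_image_le
  have hcB : Bd.card ≤ X.card + U.card :=
    (Finset.card_le_card hbad).trans ((Finset.card_union_le _ _).trans
      (Nat.add_le_add Finset.card_image_le Finset.card_image_le))
  have hcX : X.card ≤ 2 * (univ.filter fun v => T.nch v = 0).card := T.card_ne_one
  have hcU : U.card ≤ NB.card := by
    apply Finset.card_le_card
    intro x hx
    rw [hNB, Finset.mem_filter]
    exact ⟨Finset.mem_univ _, Or.inl hx⟩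
  have hc1 : (G.biUnion (fun v => (range (k + 1)).image fun j => T.nxt^[j] v)).card ≤
      G.card * (k + 1) := by
    refine Finset.card_biUnion_le.trans ((Finset.sum_le_card_nsmul _ _ (k + 1) fun v _ => ?_).trans
      (by rw [smul_eq_mul]))
    exact Finset.card_image_le.trans (by simp)
  have hc2 : (Bd.biUnion (fun v => (range (k + 1)).biUnion fun j => T.desc j v)).card ≤
      Bd.card * (Δ + 1) ^ k := by
    refine Finset.card_biUnion_le.trans ((Finset.sum_le_card_nsmul _ _ ((Δ + 1) ^ k)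
      fun v _ => ?_).trans (by rw [smul_eq_mul]))
    exact Finset.card_biUnion_le.trans ((Finset.sum_le_sum fun j _ =>
      PTree.desc_card hΔ j v).trans (sum_pow_le Δ k))
  have htot : n ≤ NB.card + G.card * (k + 1) + Bd.card * (Δ + 1) ^ k := by
    have h1 := Finset.card_le_card hcover
    rw [Finset.card_univ, Fintype.card_fin] at h1
    have h2 := Finset.card_union_le (NB ∪
      G.biUnion (fun v => (range (k + 1)).image fun j => T.nxt^[j] v))
      (Bd.biUnion (fun v => (range (k + 1)).biUnion fun j => T.desc j v))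
    have h3 := Finset.card_union_le NB
      (G.biUnion (fun v => (range (k + 1)).image fun j => T.nxt^[j] v))
    omega
  set L := (univ.filter fun v => T.nch v = 0).card with hL
  set P := (Δ + 1) ^ k with hP
  have hP1 : 1 ≤ P := Nat.one_le_pow _ _ (by omega)
  have hPP : P ≤ (Δ + 1) ^ (k + 1) := Nat.pow_le_pow_right (by omega) (by omega)
  have h4 : G.card * (k + 1) ≤ (k + 1) * B.card := by
    rw [mul_comm]; exact Nat.mul_le_mul_left _ hcG
  have h5 : Bd.card * P ≤ (2 * L + NB.card) * P := Nat.mul_le_mul_right _ (by omega)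
  have h6 : NB.card ≤ NB.card * P := Nat.le_mul_of_pos_right _ (by omega)
  have h7 : 3 * P * (L + NB.card) ≤ 3 * (Δ + 1) ^ (k + 1) * (L + NB.card) :=
    Nat.mul_le_mul_right _ (Nat.mul_le_mul_left _ hPP)
  have h8 : NB.card + (2 * L + NB.card) * P ≤ 3 * P * (L + NB.card) := by
    nlinarith
  omega

/-- The pattern of the signs above `u`. -/
def PTree.pat (T : PTree n) (k : ℕ) (u : Fin n) : Fin k → Bool :=
  fun j => T.sg (T.par^[k - 1 - (j : ℕ)] u)

theorem segment_roles [Fintype R] (Δ k : ℕ) (hk : 1 ≤ k) (hΔ : T.Deg Δ)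
    (h0 : ∀ i : Fin n, (i : ℕ) = 0 → i ∈ U) (S : Roles T U R) (Ra : Finset R)
    (hRa : ∀ v, v ∉ U → T.par v ∉ U → (S.role v ∈ Ra ↔ S.role (T.par v) ∈ Ra)) :
    ∃ (ω : ℕ → Bool) (Y : Finset R),
      (∀ ρ ∈ Y, ρ ∉ Ra ∧ (S.cls ρ).Nonempty) ∧
      (∀ v, v ∉ U → S.role v ∈ Y →
        (∀ i ≤ k, T.par^[i] v ∉ U) ∧ (∀ i, 1 ≤ i → i ≤ k → T.nch (T.par^[i] v) = 1) ∧
        ∀ i < k, T.sg (T.par^[i] v) = ω (k - 1 - i)) ∧
      (∀ v w, v ∉ U → w ∉ U → S.role v ∈ Y → S.role w ∈ Y → v ≠ w → ∀ i ≤ k, ∀ j ≤ k,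
        T.par^[i] v ≠ T.par^[j] w) ∧
      n ≤ 2 ^ k * (k + 1) * (∑ ρ ∈ Y, (S.cls ρ).card) +
        3 * (Δ + 1) ^ (k + 1) * ((univ.filter fun v => T.nch v = 0).card + (NBof S Ra).card) := by
  -- the most frequent pattern
  set B : Finset (Fin n) := univ.filter fun u => S.Bot Ra k u with hB
  obtain ⟨c, -, hc⟩ := Finset.exists_max_image (univ : Finset (Fin k → Bool))
    (fun c => (B.filter fun u => T.pat k u = c).card) ⟨fun _ => true, Finset.mem_univ _⟩
  have hBc : B.card ≤ 2 ^ k * (B.filter fun u => T.pat k u = c).card := by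
    rw [Finset.card_eq_sum_card_fiberwise (f := T.pat k) (t := univ) (fun _ _ => by simp)]
    refine (Finset.sum_le_card_nsmul _ _ _ fun d hd => hc d hd).trans ?_
    rw [smul_eq_mul, Finset.card_univ, Fintype.card_fun, Fintype.card_bool, Fintype.card_fin]
  set ω : ℕ → Bool := fun j => if h : j < k then c ⟨j, h⟩ else false with hω
  set Y : Finset R := (B.filter fun u => T.pat k u = c).image S.role with hY
  -- vertices with a role in `Y` are bottoms with the pattern
  have hbot : ∀ v, v ∉ U → S.role v ∈ Y → S.Bot Ra k v ∧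
      ∀ i < k, T.sg (T.par^[i] v) = ω (k - 1 - i) := by
    intro v hv hvY
    rw [hY, Finset.mem_image] at hvY
    obtain ⟨u, hu, hur⟩ := hvY
    rw [Finset.mem_filter, hB, Finset.mem_filter] at hu
    obtain ⟨⟨-, hu⟩, hpat⟩ := hu
    refine ⟨hu.congr h0 hv hur, fun i hi => ?_⟩
    have hkd := hu.le
    have huU := hu.1
    have hdw := S.dp_eq h0 _ u v rfl huU hv hur
    have e := S.iter_role h0 huU hv hur i (by omega)
    have a1 := (PTree.iter_dp (T := T) h0 huU i (by omega)).1
    have b1 := (PTree.iter_dp (T := T) h0 hv i (by omega)).1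
    rw [← S.sg _ b1, ← e, S.sg _ a1, hω]
    have hlt : k - 1 - i < k := by omega
    simp only [dif_pos hlt]
    rw [← hpat, PTree.pat]
    dsimp only
    congr 2
    have : k - 1 - (k - 1 - i) = i := by omega
    rw [this]
  refine ⟨ω, Y, ?_, ?_, ?_, ?_⟩
  · intro ρ hρ
    rw [hY, Finset.mem_image] at hρ
    obtain ⟨u, hu, rfl⟩ := hρ
    rw [Finset.mem_filter, hB, Finset.mem_filter] at hu
    obtain ⟨⟨-, hu⟩, -⟩ := hu
    refine ⟨hu.2.1, u, ?_⟩
    rw [Roles.cls, Finset.mem_filter]
    exact ⟨Finset.mem_univ _, hu.1, rfl⟩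
  · intro v hv hvY
    obtain ⟨h1, h2⟩ := hbot v hv hvY
    refine ⟨fun i hi => ?_, h1.2.2.2, h2⟩
    exact (PTree.iter_dp (T := T) h0 hv i (hi.trans h1.le)).1
  · intro v w hv hw hvY hwY hne i hi j hj heq
    obtain ⟨h1, -⟩ := hbot v hv hvY
    obtain ⟨h2, -⟩ := hbot w hw hwY
    have hv1 := h1.le
    have hw1 := h2.le
    have dv := (PTree.iter_dp (T := T) h0 hv i (hi.trans hv1)).2
    have dw := (PTree.iter_dp (T := T) h0 hw j (hj.trans hw1)).2
    have hij : i = j := by
      rw [heq, dw] at dv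
      have e1 := h1.2.2.1
      have e2 := h2.2.2.1
      have e3 := Nat.div_add_mod (T.dp U v) (k + 1)
      have e4 := Nat.div_add_mod (T.dp U w) (k + 1)
      rw [e1] at e3
      rw [e2] at e4
      set a := T.dp U v / (k + 1)
      set b := T.dp U w / (k + 1)
      have e5 : (k + 1) * a + j = (k + 1) * b + i := by omega
      have e6 := congrArg (fun x => x % (k + 1)) e5
      simp only [Nat.mul_add_mod] at e6
      rw [Nat.mod_eq_of_lt (by omega), Nat.mod_eq_of_lt (by omega)] at e6
      exact e6.symm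
    subst hij
    -- go down the chain
    have hdown : ∀ i, i ≤ k → T.par^[i] v = T.par^[i] w → v = w := by
      intro i
      induction i with
      | zero => intro _ h; exact h
      | succ i ih =>
        intro hik h
        apply ih (by omega)
        have c1 := h1.2.2.2 (i + 1) (by omega) hik
        have av := (PTree.iter_dp (T := T) h0 hv i (by omega)).1
        have aw := (PTree.iter_dp (T := T) h0 hw i (by omega)).1
        rw [Function.iterate_succ_apply'] at c1 h
        rw [Function.iterate_succ_apply'] at h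
        have g1 := PTree.eq_nxt c1 (PTree.ne_zero h0 av) rfl
        have g2 := PTree.eq_nxt c1 (PTree.ne_zero h0 aw) h.symm
        exact g1.symm.trans g2
    exact hne (hdown i hi heq)
  · have hcount := segment_count Δ k hΔ h0 S Ra hRa
    rw [← hB] at hcount
    have hcls : (B.filter fun u => T.pat k u = c).card ≤ ∑ ρ ∈ Y, (S.cls ρ).card := by
      have hsub : (B.filter fun u => T.pat k u = c) ⊆ Y.biUnion fun ρ => S.cls ρ := by
        intro u hu
        rw [Finset.mem_biUnion]
        refine ⟨S.role u, by rw [hY]; exact Finset.mem_image_of_mem _ hu, ?_⟩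
        rw [Finset.mem_filter, hB, Finset.mem_filter] at hu
        rw [Roles.cls, Finset.mem_filter]
        exact ⟨Finset.mem_univ _, hu.1.2.1, rfl⟩
      exact (Finset.card_le_card hsub).trans Finset.card_biUnion_le
    rw [NBof]
    have h9 : (k + 1) * B.card ≤ 2 ^ k * (k + 1) * ∑ ρ ∈ Y, (S.cls ρ).card := by
      calc (k + 1) * B.card ≤ (k + 1) * (2 ^ k * ∑ ρ ∈ Y, (S.cls ρ).card) :=
            Nat.mul_le_mul_left _ (hBc.trans (Nat.mul_le_mul_left _ hcls))
        _ = 2 ^ k * (k + 1) * ∑ ρ ∈ Y, (S.cls ρ).card := by ring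
    omega

end

end OT
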